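import Mathlib

/-!
Units of norm one of `ℤ[√d]` which are congruent to `1`, at every scale.
-/

namespace Pool.Agent.Lib_helper3.CYC

/-- `X + Y √d` has norm one and is congruent to one modulo `2 W` (and `X` modulo `2 d W`). -/
def Un (d W X Y : ℤ) : Prop :=
  X ^ 2 - d * Y ^ 2 = 1 ∧ 1 ≤ X ∧ 1 ≤ Y ∧ 2 * d * W ∣ X - 1 ∧ 2 * W ∣ Y

theorem un_exists {d W : ℤ} (hd : 0 < d) (hsq : ¬ IsSquare d) (hW : 0 < W) :
    ∃ X Y : ℤ, Un d W X Y ∧ 2 ≤ X := by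
  have h1 : 0 < d * W ^ 2 := by positivity
  have h2 : ¬ IsSquare (d * W ^ 2) := by
    rintro ⟨r, hr⟩
    have hdiv : W ^ 2 ∣ r ^ 2 := ⟨d, by rw [pow_two r, ← hr]; ring⟩
    have hdiv' : W ∣ r := (Int.pow_dvd_pow_iff (by norm_num)).1 hdiv
    obtain ⟨s, rfl⟩ := hdiv'
    apply hsq
    refine ⟨s, ?_⟩
    have h3 : W ^ 2 * d = W ^ 2 * (s * s) := by linear_combination hr
    exact mul_left_cancel₀ (by positivity) h3
  obtain ⟨x, y, hxy, hy⟩ := Pell.exists_of_not_isSquare h1 h2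
  have hy2 : 1 ≤ y ^ 2 := by
    have := sq_pos_of_ne_zero (a := y) hy
    omega
  have hy1 : 1 ≤ |y| := Int.one_le_abs hy
  have hx0 : x ≠ 0 := by
    rintro rfl
    nlinarith
  have hx1 : 1 ≤ |x| := Int.one_le_abs hx0
  have hD : 1 ≤ d * W ^ 2 * y ^ 2 := by
    have : 0 < d * W ^ 2 * y ^ 2 := by positivity
    omega
  refine ⟨x ^ 2 + d * W ^ 2 * y ^ 2, 2 * |x| * |y| * W, ⟨?_, ?_, ?_, ?_, ?_⟩, ?_⟩
  · have e1 : (2 * |x| * |y| * W) ^ 2 = 4 * x ^ 2 * y ^ 2 * W ^ 2 := by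
      rw [mul_pow, mul_pow, mul_pow, sq_abs, sq_abs]; ring
    rw [e1]
    have : (x ^ 2 - d * W ^ 2 * y ^ 2) ^ 2 = 1 := by rw [hxy]; norm_num
    linear_combination this
  · nlinarith [sq_nonneg x]
  · have : 1 ≤ |x| * |y| := by nlinarith
    nlinarith [mul_le_mul this (show (1:ℤ) ≤ W by omega) (by norm_num) (by positivity)]
  · refine ⟨W * y ^ 2, ?_⟩
    linear_combination hxy
  · exact ⟨|x| * |y|, by ring⟩
  · nlinarith [sq_nonneg x]

theorem un_mul {d W X Y X' Y' : ℤ} (hd : 0 < d) (h : Un d W X Y) (h' : Un d W X' Y') :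
    Un d W (X * X' + d * (Y * Y')) (X * Y' + Y * X') ∧
      X * X' ≤ X * X' + d * (Y * Y') ∧ X * X' + d * (Y * Y') ≤ 2 * (X * X') := by
  obtain ⟨h1, h2, h3, h4, h5⟩ := h
  obtain ⟨h1', h2', h3', h4', h5'⟩ := h'
  have hYY : 1 ≤ Y * Y' := by nlinarith
  have hXX : 1 ≤ X * X' := by nlinarith
  have hdY : 0 < d * (Y * Y') := by positivity
  refine ⟨⟨?_, ?_, ?_, ?_, ?_⟩, ?_, ?_⟩
  · linear_combination (X' ^ 2 - d * Y' ^ 2) * h1 + h1'
  · linarith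
  · nlinarith
  · have e : X * X' + d * (Y * Y') - 1 = (X - 1) * X' + (X' - 1) + d * (Y * Y') := by ring
    rw [e]
    refine dvd_add (dvd_add (h4.mul_right _) h4') ?_
    obtain ⟨k, hk⟩ := h5
    exact ⟨k * Y', by rw [hk]; ring⟩
  · exact dvd_add (h5'.mul_left _) (h5.mul_right _)
  · linarith
  · have hsq : (d * (Y * Y')) ^ 2 ≤ (X * X') ^ 2 := by
      have e1 : d * Y ^ 2 ≤ X ^ 2 := by linarith
      have e2 : d * Y' ^ 2 ≤ X' ^ 2 := by linarith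
      calc (d * (Y * Y')) ^ 2 = (d * Y ^ 2) * (d * Y' ^ 2) := by ring
        _ ≤ X ^ 2 * X' ^ 2 := by
            apply mul_le_mul e1 e2 (by positivity) (by positivity)
        _ = (X * X') ^ 2 := by ring
    have := abs_le_of_sq_le_sq' hsq (by linarith)
    linarith [this.2]

/-- Norm-one units congruent to one exist at every scale, up to a constant factor. -/
theorem units {d W : ℤ} (hd : 0 < d) (hsq : ¬ IsSquare d) (hW : 0 < W) :
    ∃ U : ℤ, 1 ≤ U ∧ ∀ B : ℤ, 1 ≤ B → ∃ X Y : ℤ, Un d W X Y ∧ B ≤ X ∧ X ≤ U * B := by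
  obtain ⟨X0, Y0, h0, hX0⟩ := un_exists hd hsq hW
  refine ⟨2 * X0, by linarith, ?_⟩
  intro B hB
  induction B, hB using Int.le_induction with
  | base => exact ⟨X0, Y0, h0, by linarith, by linarith⟩
  | succ B hB ih =>
    obtain ⟨X, Y, hXY, h1, h2⟩ := ih
    by_cases hc : B + 1 ≤ X
    · exact ⟨X, Y, hXY, hc, by nlinarith⟩
    · have hXB : X = B := by omega
      obtain ⟨k1, k2, k3⟩ := un_mul hd hXY h0
      refine ⟨_, _, k1, ?_, ?_⟩
      · subst hXB; nlinarith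
      · subst hXB; nlinarith

end Pool.Agent.Lib_helper3.CYC
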