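import Mathlib

/-!
Algebraic identities for the cyclic cubics `x^3 - A x^2 - M (A + 3 M) x - M^3`.
-/

namespace Pool.Agent.Lib_helper3.CYC

/-- The value at `x` of the cubic `X^3 - A X^2 - M (A + 3 M) X - M^3`. -/
def fv (A M x : ℤ) : ℤ := x ^ 3 - A * x ^ 2 - M * (A + 3 * M) * x - M ^ 3

/-- Sum of the two arguments. -/
def Sm (A M q m : ℤ) : ℤ := A + M + q * (m + M)

/-- Product of the two arguments. -/
def Pm (A M q L m : ℤ) : ℤ := -2 * M ^ 2 - q * (m * (m + M + L) - M ^ 2 - A * (m + M))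

theorem fv_mul (A M x y : ℤ) : fv A M x * fv A M y =
    (x * y) ^ 3 - A * (x * y) ^ 2 * (x + y) - (M * (A + 3 * M)) * (x * y) * ((x + y) ^ 2 - 2 * (x * y))
      - M ^ 3 * ((x + y) ^ 3 - 3 * (x + y) * (x * y)) + A ^ 2 * (x * y) ^ 2
      + A * (M * (A + 3 * M)) * (x * y) * (x + y) + A * M ^ 3 * ((x + y) ^ 2 - 2 * (x * y))
      + (M * (A + 3 * M)) ^ 2 * (x * y) + (M * (A + 3 * M)) * M ^ 3 * (x + y) + M ^ 6 := by
  unfold fv; ring

/-- The relation in four values. -/
theorem rel {A M q L m a b : ℤ} (hM : M = q * L) (hs : a + b = Sm A M q m)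
    (hp : a * b = Pm A M q L m) :
    fv A M a * fv A M b = -(q ^ 3 * (fv A M m * fv A M (m + M + L))) := by
  rw [fv_mul, hs, hp]
  unfold Sm Pm fv
  subst hM
  ring

theorem refl_pos {A M t g : ℤ} (hg : M * g = t ^ 2 - (A + M) * t - 2 * M ^ 2) :
    M ^ 3 * fv A M g = -(fv A M t * fv A M (A + M - t)) := by
  have h1 : M ^ 3 * fv A M g
      = (M * g) ^ 3 - A * M * (M * g) ^ 2 - M ^ 3 * (A + 3 * M) * (M * g) - M ^ 6 := by
    unfold fv; ring
  rw [h1, hg]; unfold fv; ring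

theorem refl_neg {A M t g : ℤ} (hg : M * g = -t ^ 2 + A * t + 2 * M ^ 2 + A * M) :
    M ^ 3 * fv A M g = fv A M t * fv A M (A - t) := by
  have h1 : M ^ 3 * fv A M g
      = (M * g) ^ 3 - A * M * (M * g) ^ 2 - M ^ 3 * (A + 3 * M) * (M * g) - M ^ 6 := by
    unfold fv; ring
  rw [h1, hg]; unfold fv; ring

/-- The action of a unit `1 + 2 d M e + 2 M g √d` of norm one on a solution. -/
theorem act {A M q L m a b e g d : ℤ} (hM : M = q * L) (hd : d = q * (q + 4))
    (hs : a + b = Sm A M q m) (hp : a * b = Pm A M q L m)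
    (hu : e + d * M * e ^ 2 = M * g ^ 2) (Y w u v : ℤ)
    (hY : Y = -d * (m + M) + q * (A + M) - 2 * M) (hw : w = a - b)
    (hu' : u = e * Y + g * w) (hv : v = g * Y + d * e * w) :
    (a + M * (v - q * u)) + (b - M * (v + q * u)) = Sm A M q (m - 2 * M * u) ∧
    (a + M * (v - q * u)) * (b - M * (v + q * u)) = Pm A M q L (m - 2 * M * u) := by
  constructor
  · have : (a + M * (v - q * u)) + (b - M * (v + q * u)) = (a + b) - 2 * M * q * u := by ring
    rw [this, hs]; unfold Sm; ring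
  · have h1 : (a + M * (v - q * u)) * (b - M * (v + q * u)) - Pm A M q L (m - 2 * M * u)
        = (a * b - Pm A M q L m) - M * q * u * (a + b - Sm A M q m)
          - M * (v * w + M * v ^ 2 - M * d * u ^ 2 - u * Y) := by
      subst hY hw hd
      unfold Pm Sm
      subst hM
      ring
    have h2 : v * w + M * v ^ 2 - M * d * u ^ 2 - u * Y
        = -(Y ^ 2 - d * w ^ 2) * (e + d * M * e ^ 2 - M * g ^ 2) := by
      subst hu' hv
      ring
    have h3 : e + d * M * e ^ 2 - M * g ^ 2 = 0 := by linarith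
    rw [hp, hs, h2, h3] at h1
    linarith [h1]

end Pool.Agent.Lib_helper3.CYC
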