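import Mathlib
import Pool.Agent.Lib_helper3.CYC.Alg
import Pool.Agent.Lib_helper3.CYC.Unit

/-!
Solutions of the relation in four values at every scale.
-/

namespace Pool.Agent.Lib_helper3.CYC

theorem not_sq {q : ℤ} (hq : 1 ≤ q) : ¬ IsSquare (q * (q + 4)) := by
  rintro ⟨r, hr⟩
  have h1 : (q + 1) ^ 2 < |r| ^ 2 := by rw [sq_abs]; nlinarith
  have h2 : |r| ^ 2 < (q + 2) ^ 2 := by rw [sq_abs]; nlinarith
  have h3 : q + 1 < |r| := lt_of_pow_lt_pow_left₀ 2 (abs_nonneg r) h1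
  have h4 : |r| < q + 2 := lt_of_pow_lt_pow_left₀ 2 (by linarith) h2
  omega

theorem quad_le {K x m : ℤ} (hK : 1 ≤ K) (hx : 1 ≤ x) (hm : 6 * K * x ≤ m) :
    -(m ^ 2) + m * (K + x) + 3 * K ^ 2 + 2 * K * x + x ^ 2 ≤ 0 := by
  have hKx : 1 ≤ K * x := one_le_mul_of_one_le_of_one_le hK hx
  have hm0 : 0 ≤ m := by linarith
  have f1 : K ≤ K * x := le_mul_of_one_le_right (by linarith) hx
  have f2 : x ≤ K * x := le_mul_of_one_le_left (by linarith) hK
  have f3 : m * (K + x) ≤ m * (2 * (K * x)) := mul_le_mul_of_nonneg_left (by linarith) hm0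
  have f4 : m * (6 * (K * x)) ≤ m * m := mul_le_mul_of_nonneg_left (by linarith) hm0
  have f5 : (6 * (K * x)) * (6 * (K * x)) ≤ (6 * (K * x)) * m :=
    mul_le_mul_of_nonneg_left (by linarith) (by linarith)
  have f6 : K ^ 2 ≤ (K * x) ^ 2 := pow_le_pow_left₀ (by linarith) f1 2
  have f7 : x ^ 2 ≤ (K * x) ^ 2 := pow_le_pow_left₀ (by linarith) f2 2
  have f8 : K * x ≤ (K * x) ^ 2 := by
    have := mul_le_mul_of_nonneg_left hKx (show (0:ℤ) ≤ K * x by linarith)
    nlinarith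
  generalize K * x = z at *
  nlinarith

/-- Location of the two roots. -/
theorem locate {A M q L m x a b K : ℤ} (hq : 1 ≤ q) (hK : K = |A| + |M| + |L| + 1) (hx : 1 ≤ x)
    (hm : 6 * K * x ≤ m) (hs : a + b = Sm A M q m) (hp : a * b = Pm A M q L m) (hab : b ≤ a) :
    x ≤ a ∧ x ≤ -b ∧ a + b ≤ q * m + 2 * q * K := by
  have hA := abs_nonneg A
  have hMn := abs_nonneg M
  have hL := abs_nonneg L
  have hA1 := le_abs_self A
  have hA2 := neg_abs_le A
  have hM1 := le_abs_self M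
  have hM2 := neg_abs_le M
  have hL1 := le_abs_self L
  have hL2 := neg_abs_le L
  have hK1 : 1 ≤ K := by linarith
  have hKx : K ≤ K * x := le_mul_of_one_le_right (by linarith) hx
  have hm0 : K ≤ m := by linarith
  have hm1 : 0 ≤ m := by linarith
  have hmK : 0 ≤ m + M := by linarith
  have hS0 : 0 ≤ a + b := by
    rw [hs]; unfold Sm
    have : 1 * (m + M) ≤ q * (m + M) := mul_le_mul_of_nonneg_right hq hmK
    linarith
  have hS1 : a + b ≤ q * m + 2 * q * K := by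
    rw [hs]; unfold Sm
    have h1 : q * M ≤ q * K := mul_le_mul_of_nonneg_left (by linarith) (by linarith)
    have h2 : 1 * K ≤ q * K := mul_le_mul_of_nonneg_right hq (by linarith)
    linarith
  have hP : a * b ≤ q * (-(m ^ 2) + m * K + 3 * K ^ 2) := by
    rw [hp]; unfold Pm
    have e1 : m * (-(M + L - A)) ≤ m * K := mul_le_mul_of_nonneg_left (by linarith) hm1
    have e2 : M ^ 2 ≤ K ^ 2 := by
      rw [← sq_abs M]; exact pow_le_pow_left₀ hMn (by linarith) 2
    have e3 : A * M ≤ K ^ 2 := by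
      have : A * M ≤ |A| * |M| := by rw [← abs_mul]; exact le_abs_self _
      have h2 : |A| * |M| ≤ K * K := mul_le_mul (by linarith) (by linarith) hMn (by linarith)
      nlinarith
    have e4 : 0 ≤ M ^ 2 := sq_nonneg M
    have e5 : 0 ≤ K ^ 2 := sq_nonneg K
    have e6 : q * (-(m * (m + M + L) - M ^ 2 - A * (m + M))) ≤ q * (-(m ^ 2) + m * K + 3 * K ^ 2) := by
      apply mul_le_mul_of_nonneg_left _ (by linarith)
      linarith
    linarith
  have hkey : (a + x) * (b + x) ≤ 0 := by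
    have e0 : (a + x) * (b + x) = a * b + x * (a + b) + x ^ 2 := by ring
    have e1 : x * (a + b) ≤ x * (q * m + 2 * q * K) := mul_le_mul_of_nonneg_left hS1 (by linarith)
    have e2 : 1 * x ^ 2 ≤ q * x ^ 2 := mul_le_mul_of_nonneg_right hq (sq_nonneg x)
    have e4 := mul_le_mul_of_nonneg_left (quad_le hK1 hx hm) (show (0:ℤ) ≤ q by linarith)
    rw [e0]
    linarith
  have hb : b + x ≤ 0 := by
    by_contra hc
    push Not at hc
    have h1 : 0 < a + x := by linarith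
    have h2 := mul_pos h1 hc
    linarith
  exact ⟨by linarith, by linarith, hS1⟩

theorem pell_bounds {q d X Y : ℤ} (hq : 1 ≤ q) (hd : d = q * (q + 4)) (h1 : X ^ 2 - d * Y ^ 2 = 1)
    (hY : 1 ≤ Y) (hX : q + 2 ≤ X) : Y ≤ X ∧ q * X ≤ d * Y := by
  have hd1 : 1 ≤ d := by rw [hd]; nlinarith
  constructor
  · have h2 : Y ^ 2 ≤ d * Y ^ 2 := le_mul_of_one_le_left (sq_nonneg Y) hd1
    exact (abs_le_of_sq_le_sq' (by linarith) (by linarith)).2
  · have h3 : (q * X) ^ 2 ≤ (d * Y) ^ 2 := by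
      have e1 : (d * Y) ^ 2 = d * (X ^ 2 - 1) := by linear_combination (-d) * h1
      have e2 : q + 4 ≤ 4 * X ^ 2 := by nlinarith
      have e3 := mul_le_mul_of_nonneg_left e2 (show (0:ℤ) ≤ q by linarith)
      rw [e1, hd]
      linarith
    have h4 : 0 ≤ d * Y := by positivity
    exact (abs_le_of_sq_le_sq' h3 h4).2

theorem low_bound {q d X Y w y m0 m : ℤ} (hX : 1 ≤ X) (hd : 0 < d) (hdY : q * X ≤ d * Y)
    (hy : y ≤ q * |w| - 1) (hdm : d * m = d * m0 - (X - 1) * y + d * Y * |w|) :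
    X - d * |m0| - |y| ≤ d * m := by
  have e1 : X * y ≤ X * (q * |w| - 1) := mul_le_mul_of_nonneg_left hy (by linarith)
  have e2 : (q * X) * |w| ≤ (d * Y) * |w| := mul_le_mul_of_nonneg_right hdY (abs_nonneg w)
  have e3 : d * (-|m0|) ≤ d * m0 := mul_le_mul_of_nonneg_left (neg_abs_le m0) hd.le
  have e4 := neg_abs_le y
  rw [hdm]
  linarith

theorem up_bound {d X Y w y m0 m : ℤ} (hX : 1 ≤ X) (hd : 0 < d) (hYX : Y ≤ X)
    (hdm : d * m = d * m0 - (X - 1) * y + d * Y * |w|) :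
    m ≤ (|m0| + |y| + |w|) * X := by
  have hd1 : 1 ≤ d := hd
  have f1 : (X - 1) * (-y) ≤ (X - 1) * |y| :=
    mul_le_mul_of_nonneg_left (neg_le_abs y) (by linarith)
  have f1' : (X - 1) * |y| ≤ X * |y| := mul_le_mul_of_nonneg_right (by linarith) (abs_nonneg y)
  have f2 : d * Y * |w| ≤ d * X * |w| :=
    mul_le_mul_of_nonneg_right (mul_le_mul_of_nonneg_left hYX hd.le) (abs_nonneg w)
  have f3 : m0 ≤ |m0| * X := (le_abs_self m0).trans (le_mul_of_one_le_right (abs_nonneg m0) hX)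
  have f3' := mul_le_mul_of_nonneg_left f3 hd.le
  have f4 : 1 * (X * |y|) ≤ d * (X * |y|) :=
    mul_le_mul_of_nonneg_right hd1 (by positivity)
  have e1 : d * m ≤ d * ((|m0| + |y| + |w|) * X) := by
    rw [hdm]
    linarith
  exact le_of_mul_le_mul_left e1 hd

theorem diff_bound {X Y w y s m0 : ℤ} (hX : 1 ≤ X) (hY : 1 ≤ Y) (hYX : Y ≤ X) (hs : |s| = 1) :
    |s * Y * y + X * w| ≤ (|m0| + |y| + |w|) * X := by
  have e1 : |s * Y * y + X * w| ≤ |s * Y * y| + |X * w| := abs_add_le _ _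
  have e2 : |s * Y * y| = Y * |y| := by
    rw [abs_mul, abs_mul, hs, abs_of_pos (by linarith : (0:ℤ) < Y)]; ring
  have e3 : |X * w| = X * |w| := by rw [abs_mul, abs_of_pos (by linarith : (0:ℤ) < X)]
  rw [e2, e3] at e1
  have e4 : Y * |y| ≤ X * |y| := mul_le_mul_of_nonneg_right hYX (abs_nonneg y)
  have e5 : 0 ≤ |m0| * X := by positivity
  linarith

end Pool.Agent.Lib_helper3.CYC
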