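import Mathlib
import Pool.Agent.Lib_helper3.CYC.Core

/-!
Solutions of the relation in four values at every scale.
-/

namespace Pool.Agent.Lib_helper3.CYC

theorem sign_exists (M : ℤ) : ∃ σ : ℤ, σ ^ 2 = 1 ∧ |M| = σ * M := by
  rcases le_total 0 M with h | h
  · exact ⟨1, by norm_num, by rw [abs_of_nonneg h]; ring⟩
  · exact ⟨-1, by norm_num, by rw [abs_of_nonpos h]; ring⟩

theorem sign_exists' (w : ℤ) : ∃ s : ℤ, s ^ 2 = 1 ∧ |s| = 1 ∧ s * w = -|w| := by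
  rcases le_total 0 w with h | h
  · exact ⟨-1, by norm_num, by norm_num, by rw [abs_of_nonneg h]; ring⟩
  · exact ⟨1, by norm_num, by norm_num, by rw [abs_of_nonpos h]; ring⟩

/-- One step: a unit produces a new solution. -/
theorem step {A M q L m0 a0 b0 X Y d y w : ℤ} (hM : M = q * L) (hq : 1 ≤ q) (hM0 : M ≠ 0)
    (hd : d = q * (q + 4))
    (hs : a0 + b0 = Sm A M q m0) (hp : a0 * b0 = Pm A M q L m0)
    (ha : M ∣ a0 - A) (hb : M ∣ b0)
    (hy : y = -d * (m0 + M) + q * (A + M) - 2 * M) (hw : w = a0 - b0)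
    (hYw : y ≤ q * |w| - 1)
    (hU : Un d |M| X Y) (hX : q + 2 ≤ X) :
    ∃ m a b : ℤ, b ≤ a ∧ a + b = Sm A M q m ∧ a * b = Pm A M q L m ∧ M ∣ b * (b - A) ∧
      a - b ≤ (|m0| + |y| + |w|) * X ∧ m ≤ (|m0| + |y| + |w|) * X ∧
      X - d * |m0| - |y| ≤ d * m := by
  obtain ⟨h1, h2, h3, h4, h5⟩ := hU
  obtain ⟨e0, he0⟩ := h4
  obtain ⟨g0, hg0⟩ := h5
  obtain ⟨σ, hσ, hσM⟩ := sign_exists M
  obtain ⟨s, hs1, hs2, hsw⟩ := sign_exists' w
  have hd0 : 0 < d := by rw [hd]; nlinarith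
  have hXe : X = 1 + 2 * d * M * (σ * e0) := by
    rw [hσM] at he0; linarith
  have hYs : s * Y = 2 * M * (s * (σ * g0)) := by
    rw [hg0, hσM]; ring
  have hu : (σ * e0) + d * M * (σ * e0) ^ 2 = M * (s * (σ * g0)) ^ 2 := by
    have e1 : (s * Y) ^ 2 = Y ^ 2 := by rw [mul_pow, hs1]; ring
    have e2 : (1 + 2 * d * M * (σ * e0)) ^ 2 - d * (2 * M * (s * (σ * g0))) ^ 2 = 1 := by
      rw [← hXe, ← hYs, e1]; exact h1
    have e3 : (4 * d * M) * ((σ * e0) + d * M * (σ * e0) ^ 2)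
        = (4 * d * M) * (M * (s * (σ * g0)) ^ 2) := by
      linear_combination e2
    have e4 : 4 * d * M ≠ 0 := mul_ne_zero (mul_ne_zero (by norm_num) hd0.ne') hM0
    exact mul_left_cancel₀ e4 e3
  obtain ⟨k1, k2⟩ := act hM hd hs hp hu y w ((σ * e0) * y + (s * (σ * g0)) * w)
    ((s * (σ * g0)) * y + d * (σ * e0) * w) hy hw rfl rfl
  have hu2 : 2 * d * M * ((σ * e0) * y + (s * (σ * g0)) * w) = (X - 1) * y - d * Y * |w| := by
    have f1 : 2 * d * M * ((σ * e0) * y + (s * (σ * g0)) * w)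
        = (2 * d * M * (σ * e0)) * y + d * ((2 * M * (s * (σ * g0))) * w) := by ring
    have f2 : 2 * d * M * (σ * e0) = X - 1 := by rw [hXe]; ring
    rw [f1, ← hYs, f2]
    have f3 : d * (s * Y * w) = d * Y * (s * w) := by ring
    rw [f3, hsw]; ring
  have hv2 : 2 * M * ((s * (σ * g0)) * y + d * (σ * e0) * w) = s * Y * y + (X - 1) * w := by
    have f1 : 2 * M * ((s * (σ * g0)) * y + d * (σ * e0) * w)
        = (2 * M * (s * (σ * g0))) * y + (2 * d * M * (σ * e0)) * w := by ring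
    have f2 : 2 * d * M * (σ * e0) = X - 1 := by rw [hXe]; ring
    rw [f1, ← hYs, f2]
  generalize (σ * e0) * y + (s * (σ * g0)) * w = u at *
  generalize (s * (σ * g0)) * y + d * (σ * e0) * w = v at *
  obtain ⟨p1, p2⟩ := pell_bounds hq hd h1 h3 hX
  have hdm : d * (m0 - 2 * M * u) = d * m0 - (X - 1) * y + d * Y * |w| := by
    linear_combination -hu2
  have hlow := low_bound h2 hd0 p2 hYw hdm
  have hup := up_bound h2 hd0 p1 hdm
  have hdiff : (a0 + M * (v - q * u)) - (b0 - M * (v + q * u)) = s * Y * y + X * w := by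
    have : (a0 + M * (v - q * u)) - (b0 - M * (v + q * u)) = w + 2 * M * v := by rw [hw]; ring
    rw [this, hv2]; ring
  have hdabs : |(a0 + M * (v - q * u)) - (b0 - M * (v + q * u))| ≤ (|m0| + |y| + |w|) * X := by
    rw [hdiff]; exact diff_bound h2 h3 p1 hs2
  have hda : M ∣ (a0 + M * (v - q * u)) - A := by
    have : (a0 + M * (v - q * u)) - A = (a0 - A) + M * (v - q * u) := by ring
    rw [this]; exact dvd_add ha (dvd_mul_right _ _)
  have hdb : M ∣ b0 - M * (v + q * u) := dvd_sub hb (dvd_mul_right _ _)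
  rcases le_total (b0 - M * (v + q * u)) (a0 + M * (v - q * u)) with h | h
  · exact ⟨_, _, _, h, k1, k2, hdb.mul_right _, (le_abs_self _).trans hdabs, hup, hlow⟩
  · refine ⟨_, _, _, h, by rw [add_comm]; exact k1, by rw [mul_comm]; exact k2,
      hda.mul_left _, ?_, hup, hlow⟩
    have : (b0 - M * (v + q * u)) - (a0 + M * (v - q * u))
        ≤ |(a0 + M * (v - q * u)) - (b0 - M * (v + q * u))| := by
      rw [abs_sub_comm]; exact le_abs_self _
    exact this.trans hdabs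

theorem core {A M q L m0 a0 b0 : ℤ} (hM : M = q * L) (hq : 1 ≤ q) (hM0 : M ≠ 0)
    (hs : a0 + b0 = Sm A M q m0) (hp : a0 * b0 = Pm A M q L m0)
    (ha : M ∣ a0 - A) (hb : M ∣ b0)
    (hY : -(q * (q + 4)) * (m0 + M) + q * (A + M) - 2 * M ≤ q * |a0 - b0| - 1) :
    ∃ C : ℤ, 1 ≤ C ∧ ∀ x : ℤ, 1 ≤ x → ∃ m a b : ℤ, a + b = Sm A M q m ∧ a * b = Pm A M q L m ∧
      x ≤ m ∧ m ≤ C * x ∧ x ≤ a ∧ a ≤ C * x ∧ x ≤ -b ∧ -b ≤ C * x ∧ M ∣ b * (b - A) := by
  obtain ⟨d, hd⟩ : ∃ d : ℤ, d = q * (q + 4) := ⟨_, rfl⟩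
  obtain ⟨y, hy⟩ : ∃ y : ℤ, y = -d * (m0 + M) + q * (A + M) - 2 * M := ⟨_, rfl⟩
  obtain ⟨w, hw⟩ : ∃ w : ℤ, w = a0 - b0 := ⟨_, rfl⟩
  have hYw : y ≤ q * |w| - 1 := by rw [hy, hw, hd]; exact hY
  have hd0 : 0 < d := by rw [hd]; nlinarith
  have hMpos : 0 < |M| := abs_pos.2 hM0
  obtain ⟨U, hU1, hU⟩ := units hd0 (by rw [hd]; exact not_sq hq) hMpos
  obtain ⟨K, hK⟩ : ∃ K : ℤ, K = |A| + |M| + |L| + 1 := ⟨_, rfl⟩
  have hK1 : 1 ≤ K := by
    have := abs_nonneg A; have := abs_nonneg M; have := abs_nonneg L; linarith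
  obtain ⟨E, hE⟩ : ∃ E : ℤ, E = d * |m0| + |y| + q + 2 := ⟨_, rfl⟩
  have hdm0 : 0 ≤ d * |m0| := by positivity
  have hyn := abs_nonneg y
  have hE1 : q + 2 ≤ E := by linarith
  obtain ⟨T, hT⟩ : ∃ T : ℤ, T = 6 * d * K + E := ⟨_, rfl⟩
  obtain ⟨G, hG⟩ : ∃ G : ℤ, G = |m0| + |y| + |w| := ⟨_, rfl⟩
  have hG0 : 0 ≤ G := by rw [hG]; positivity
  have hdK : 0 ≤ 6 * d * K := by positivity
  have hT1 : 1 ≤ T := by linarith
  obtain ⟨R, hR⟩ : ∃ R : ℤ, R = G * (U * T) := ⟨_, rfl⟩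
  have hR0 : 0 ≤ R := by rw [hR]; positivity
  refine ⟨2 * q * K + (q + 1) * R + 1, ?_, ?_⟩
  · have h1 : 0 ≤ 2 * q * K := by positivity
    have h2 : 0 ≤ (q + 1) * R := by positivity
    linarith
  intro x hx
  obtain ⟨X, Y, hUn, h6, h7⟩ := hU (T * x) (one_le_mul_of_one_le_of_one_le hT1 hx)
  have hEx : E ≤ E * x := le_mul_of_one_le_right (by linarith) hx
  have hTx : T * x = 6 * d * K * x + E * x := by rw [hT]; ring
  have hdKx : 0 ≤ 6 * d * K * x := by positivity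
  have hXq : q + 2 ≤ X := by linarith
  obtain ⟨m, a, b, hab, hsum, hprod, hdiv, hdd, hmup, hlow⟩ :=
    step hM hq hM0 hd hs hp ha hb hy hw hYw hUn hXq
  rw [← hG] at hdd hmup
  have hmlow : 6 * K * x ≤ m := by
    have e1 : d * (6 * K * x) ≤ d * m := by
      refine le_trans ?_ hlow
      have : d * (6 * K * x) = 6 * d * K * x := by ring
      rw [this]; linarith
    exact le_of_mul_le_mul_left e1 hd0
  obtain ⟨l1, l2, l3⟩ := locate hq hK hx hmlow hsum hprod hab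
  have hKx : x ≤ K * x := le_mul_of_one_le_left (by linarith) hK1
  have hmx : x ≤ m := by
    have : 6 * K * x = 6 * (K * x) := by ring
    linarith
  have hGX : G * X ≤ R * x := by
    have := mul_le_mul_of_nonneg_left h7 hG0
    have e : G * (U * (T * x)) = R * x := by rw [hR]; ring
    linarith
  have hm2 : m ≤ R * x := hmup.trans hGX
  have hqm : q * m ≤ q * (R * x) := mul_le_mul_of_nonneg_left hm2 (by linarith)
  have hqK : 2 * q * K ≤ 2 * q * K * x := le_mul_of_one_le_right (by positivity) hx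
  have hRx : 0 ≤ R * x := by positivity
  have hqRx : 0 ≤ q * (R * x) := by positivity
  have hqKx : 0 ≤ 2 * q * K * x := by positivity
  have hC : (2 * q * K + (q + 1) * R + 1) * x = 2 * q * K * x + q * (R * x) + R * x + x := by ring
  refine ⟨m, a, b, hsum, hprod, hmx, ?_, l1, ?_, l2, ?_, hdiv⟩ <;> rw [hC] <;> linarith

end Pool.Agent.Lib_helper3.CYC
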