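import Mathlib
import Pool.Agent.Lib_helper3.CYC.Scale

/-!
Solutions at every scale for all parameters, and the transfer to positive arguments.
-/

namespace Pool.Agent.Lib_helper3.CYC

/-- Solutions of the relation in four values at every scale. -/
theorem sols {A M q L : ℤ} (hM : M = q * L) (hq : 1 ≤ q) (hM0 : M ≠ 0) :
    ∃ C : ℤ, 1 ≤ C ∧ ∀ x : ℤ, 1 ≤ x → ∃ m a b : ℤ, a + b = Sm A M q m ∧ a * b = Pm A M q L m ∧
      x ≤ m ∧ m ≤ C * x ∧ x ≤ a ∧ a ≤ C * x ∧ x ≤ -b ∧ -b ≤ C * x ∧ M ∣ b * (b - A) := by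
  rcases lt_or_gt_of_ne hM0 with h | h
  · refine core (m0 := -2 * M) (a0 := A + M) (b0 := -(q * M)) hM hq hM0 ?_ ?_
      ⟨1, by ring⟩ ⟨-q, by ring⟩ ?_
    · unfold Sm; ring
    · unfold Pm; subst hM; ring
    · have h1 : A + M - -(q * M) ≤ |A + M - -(q * M)| := le_abs_self _
      have h2 := mul_le_mul_of_nonneg_left h1 (show (0:ℤ) ≤ q by linarith)
      have h3 : (4 * q - 2) * M ≤ -1 := by nlinarith
      have h4 : -(q * (q + 4)) * (-2 * M + M) + q * (A + M) - 2 * M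
          = q * (A + M - -(q * M)) + (4 * q - 2) * M := by ring
      rw [h4]; linarith
  · refine core (m0 := -L) (a0 := A + M) (b0 := (q - 1) * M) hM hq hM0 ?_ ?_
      ⟨1, by ring⟩ ⟨q - 1, by ring⟩ ?_
    · unfold Sm; subst hM; ring
    · unfold Pm; subst hM; ring
    · have h1 : A + M - (q - 1) * M ≤ |A + M - (q - 1) * M| := le_abs_self _
      have h2 := mul_le_mul_of_nonneg_left h1 (show (0:ℤ) ≤ q by linarith)
      have h3 : 1 ≤ (4 * q - 2) * M := by nlinarith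
      have h4 : -(q * (q + 4)) * (-L + M) + q * (A + M) - 2 * M
          = q * (A + M - (q - 1) * M) - (4 * q - 2) * M := by
        have : q * (q + 4) * L = (q + 4) * M := by rw [hM]; ring
        linear_combination this
      rw [h4]; linarith

theorem gbound {K x β s e M' g : ℤ} (hK : 1 ≤ K) (hx : 1 ≤ x) (hβ : 4 * K * x ≤ β)
    (hs1 : -K ≤ s) (hs2 : s ≤ K) (he1 : -(2 * K ^ 2) ≤ e) (he2 : e ≤ K ^ 2)
    (hM1 : 1 ≤ M') (hMK : M' ≤ K) (hg : M' * g = β * (β + s) + e) :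
    x ≤ g ∧ g ≤ β * (β + K) + K ^ 2 := by
  have hKx : K ≤ K * x := le_mul_of_one_le_right (by linarith) hx
  have hKx1 : 1 ≤ K * x := by linarith
  have hβ0 : 0 ≤ β := by linarith
  have e1 : β * (3 * (K * x)) ≤ β * (β + s) := mul_le_mul_of_nonneg_left (by linarith) hβ0
  have e2 : (4 * (K * x)) * (3 * (K * x)) ≤ β * (3 * (K * x)) :=
    mul_le_mul_of_nonneg_right (by linarith) (by linarith)
  have e3 : K ^ 2 ≤ (K * x) ^ 2 := pow_le_pow_left₀ (by linarith) hKx 2
  have e4 : K * x ≤ (K * x) ^ 2 := by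
    have := mul_le_mul_of_nonneg_left hKx1 (show (0:ℤ) ≤ K * x by linarith)
    linarith [this, sq (K * x)]
  have e5 : 12 * (K * x) ^ 2 ≤ β * (β + s) := by
    have : (4 * (K * x)) * (3 * (K * x)) = 12 * (K * x) ^ 2 := by ring
    linarith
  have e6 : M' * x ≤ M' * g := by
    have : M' * x ≤ K * x := mul_le_mul_of_nonneg_right hMK (by linarith)
    rw [hg]; linarith
  have hxg : x ≤ g := le_of_mul_le_mul_left e6 (by linarith)
  refine ⟨hxg, ?_⟩
  have e7 : g ≤ M' * g := le_mul_of_one_le_left (by linarith) hM1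
  have e8 : β * (β + s) ≤ β * (β + K) := mul_le_mul_of_nonneg_left (by linarith) hβ0
  rw [hg] at e7
  linarith

/-- Transfer of a large negative argument to positive arguments. -/
theorem transfer {A M b x K : ℤ} (hM0 : M ≠ 0) (hK : |A| + |M| + 1 ≤ K) (hx : 1 ≤ x)
    (hdiv : M ∣ b * (b - A)) (hb : 4 * K * x ≤ -b) :
    ∃ t g : ℤ, x ≤ t ∧ t ≤ -b + K ∧ x ≤ g ∧ g ≤ (-b) * (-b + K) + K ^ 2 ∧
      |M| ^ 3 * |fv A M g| = |fv A M t| * |fv A M b| := by
  have hA := abs_nonneg A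
  have hMn := abs_nonneg M
  have hA1 := le_abs_self A
  have hA2 := neg_abs_le A
  have hM1 : 1 ≤ |M| := Int.one_le_abs hM0
  have hK1 : 1 ≤ K := by linarith
  have hKx : K ≤ K * x := le_mul_of_one_le_right (by linarith) hx
  have hxK : x ≤ K * x := le_mul_of_one_le_left (by linarith) hK1
  have hMK : M ^ 2 ≤ K ^ 2 := by
    rw [← sq_abs M]; exact pow_le_pow_left₀ hMn (by linarith) 2
  have hAM : |A * M| ≤ K ^ 2 - M ^ 2 := by
    rw [abs_mul, ← sq_abs M]
    have h1 : (|A| + |M|) ^ 2 ≤ K ^ 2 := pow_le_pow_left₀ (by linarith) (by linarith) 2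
    have h2 : 0 ≤ |A| * |M| := by positivity
    nlinarith [sq_nonneg |A|]
  have hAM1 := le_abs_self (A * M)
  have hAM2 := neg_abs_le (A * M)
  have hM2 := sq_nonneg M
  obtain ⟨k, hk⟩ := hdiv
  rcases lt_or_gt_of_ne hM0 with h | h
  · have habs : |M| = -M := abs_of_neg h
    have hg : M * (-k + 2 * M + A) = -(A - b) ^ 2 + A * (A - b) + 2 * M ^ 2 + A * M := by
      linear_combination hk
    have hg' : |M| * (-k + 2 * M + A) = (-b) * ((-b) + A) + (-(2 * M ^ 2) - A * M) := by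
      rw [habs]; linear_combination -hg
    obtain ⟨g1, g2⟩ := gbound hK1 hx hb (by linarith) (by linarith) (by linarith) (by linarith)
      hM1 (by linarith) hg'
    refine ⟨A - b, -k + 2 * M + A, by linarith, by linarith, g1, g2, ?_⟩
    have := congrArg abs (refl_neg hg)
    rwa [abs_mul, abs_mul, abs_pow, show A - (A - b) = b by ring] at this
  · have habs : |M| = M := abs_of_pos h
    have hg : M * (k - b - 2 * M) = (A + M - b) ^ 2 - (A + M) * (A + M - b) - 2 * M ^ 2 := by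
      linear_combination -hk
    have hg' : |M| * (k - b - 2 * M) = (-b) * ((-b) + (A + M)) + (-(2 * M ^ 2)) := by
      rw [habs]; linear_combination hg
    obtain ⟨g1, g2⟩ := gbound hK1 hx hb (by linarith) (by linarith) (by linarith)
      (by linarith [sq_nonneg K]) hM1 (by linarith) hg'
    refine ⟨A + M - b, k - b - 2 * M, by linarith, by linarith, g1, g2, ?_⟩
    have := congrArg abs (refl_pos hg)
    rwa [abs_neg, abs_mul, abs_mul, abs_pow, show A + M - (A + M - b) = b by ring] at this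

theorem fv_ne {A M n : ℤ} (hn : |A| + |M * (A + 3 * M)| + |M ^ 3| + 1 ≤ |n|) : fv A M n ≠ 0 := by
  intro h
  unfold fv at h
  have e1 : n ^ 3 = A * n ^ 2 + M * (A + 3 * M) * n + M ^ 3 := by linarith
  have h1 : |n| ^ 3 ≤ |A| * |n| ^ 2 + |M * (A + 3 * M)| * |n| + |M ^ 3| := by
    calc |n| ^ 3 = |n ^ 3| := by rw [abs_pow]
      _ = |A * n ^ 2 + M * (A + 3 * M) * n + M ^ 3| := by rw [e1]
      _ ≤ |A * n ^ 2| + |M * (A + 3 * M) * n| + |M ^ 3| := abs_add_three _ _ _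
      _ = |A| * |n| ^ 2 + |M * (A + 3 * M)| * |n| + |M ^ 3| := by
          rw [abs_mul, abs_mul (M * (A + 3 * M)) n, abs_pow]
  have hA := abs_nonneg A
  have hB := abs_nonneg (M * (A + 3 * M))
  have hC := abs_nonneg (M ^ 3)
  have hn1 : 1 ≤ |n| := by linarith
  have hn2 : |n| ≤ |n| ^ 2 := by nlinarith
  have hn3 : 1 ≤ |n| ^ 2 := by linarith
  have f1 : |M * (A + 3 * M)| * |n| ≤ |M * (A + 3 * M)| * |n| ^ 2 :=
    mul_le_mul_of_nonneg_left hn2 hB
  have f2 : |M ^ 3| * 1 ≤ |M ^ 3| * |n| ^ 2 := mul_le_mul_of_nonneg_left hn3 hC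
  have f3 : (|A| + |M * (A + 3 * M)| + |M ^ 3| + 1) * |n| ^ 2 ≤ |n| * |n| ^ 2 :=
    mul_le_mul_of_nonneg_right hn (by linarith)
  have f4 : |n| * |n| ^ 2 = |n| ^ 3 := by ring
  nlinarith

end Pool.Agent.Lib_helper3.CYC
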