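import Mathlib
import Pool.Agent.Lib_helper3.CYC.Trans

/-!
Constant signs on an interval `[x, K x^2]` determine the sign at `M`.
-/

namespace Pool.Agent.Lib_helper3.CYC

/-- Completely multiplicative functions on the positive integers with values `1` and `-1`. -/
structure CM (h : ℕ → ℤ) : Prop where
  values : ∀ m : ℕ, 1 ≤ m → h m = 1 ∨ h m = -1
  mul : ∀ m n : ℕ, 1 ≤ m → 1 ≤ n → h (m * n) = h m * h n

theorem CM.one {h : ℕ → ℤ} (hh : CM h) : h 1 = 1 := by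
  have h1 := hh.mul 1 1 le_rfl le_rfl
  rw [mul_one] at h1
  rcases hh.values 1 le_rfl with h2 | h2
  · exact h2
  · rw [h2] at h1; norm_num at h1

theorem CM.cube {h : ℕ → ℤ} (hh : CM h) {n : ℕ} (hn : 1 ≤ n) : h (n ^ 3) = h n := by
  have h1 : h (n ^ 3) = h n * (h n * h n) := by
    rw [show n ^ 3 = n * (n * n) by ring, hh.mul _ _ hn (Nat.one_le_iff_ne_zero.2
      (mul_ne_zero (by omega) (by omega))), hh.mul _ _ hn hn]
  rcases hh.values n hn with h2 | h2 <;> rw [h1, h2] <;> norm_num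

theorem cm_key {h : ℕ → ℤ} (hh : CM h) {a b m m' q M g t : ℕ} (ha : 1 ≤ a) (hb : 1 ≤ b)
    (hm : 1 ≤ m) (hm' : 1 ≤ m') (hq : 1 ≤ q) (hM : 1 ≤ M) (hg : 1 ≤ g) (ht : 1 ≤ t) {ε : ℤ}
    (ea : h a = ε) (em : h m = ε) (em' : h m' = ε) (eg : h g = ε) (et : h t = ε)
    (e1 : a * b = q ^ 3 * (m * m')) (e2 : M ^ 3 * g = t * b) : h M = h q * ε := by
  have f1 : h a * h b = h q * (h m * h m') := by
    rw [← hh.mul _ _ ha hb, e1, hh.mul _ _ (Nat.one_le_pow _ _ hq) (Nat.mul_pos hm hm'),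
      hh.cube hq, hh.mul _ _ hm hm']
  have f2 : h M * h g = h t * h b := by
    rw [← hh.mul _ _ ht hb, ← e2, hh.mul _ _ (Nat.one_le_pow _ _ hM) hg, hh.cube hM]
  rw [ea, em, em'] at f1
  rw [eg, et] at f2
  have hε : ε = 1 ∨ ε = -1 := by rw [← ea]; exact hh.values a ha
  rcases hh.values b hb with h1 | h1 <;> rcases hε with h2 | h2 <;>
    rcases hh.values q hq with h3 | h3 <;> rcases hh.values M hM with h4 | h4 <;>
    rw [h1, h2, h3] at f1 <;> rw [h1, h2, h4] at f2 <;> rw [h2, h3, h4] <;> omega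

theorem natAbs_pos' {a : ℤ} (ha : a ≠ 0) : 1 ≤ a.natAbs := by omega

theorem natAbs_rel {A M q L m a b : ℤ} (hM : M = q * L) (hs : a + b = Sm A M q m)
    (hp : a * b = Pm A M q L m) :
    (fv A M a).natAbs * (fv A M b).natAbs =
      q.natAbs ^ 3 * ((fv A M m).natAbs * (fv A M (m + M + L)).natAbs) := by
  have := congrArg Int.natAbs (rel hM hs hp)
  rwa [Int.natAbs_mul, Int.natAbs_neg, Int.natAbs_mul, Int.natAbs_mul, Int.natAbs_pow] at this

theorem natAbs_transfer {A M g t b : ℤ}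
    (h : |M| ^ 3 * |fv A M g| = |fv A M t| * |fv A M b|) :
    M.natAbs ^ 3 * (fv A M g).natAbs = (fv A M t).natAbs * (fv A M b).natAbs := by
  have := congrArg Int.natAbs h
  rwa [Int.natAbs_mul, Int.natAbs_mul, Int.natAbs_pow, Int.natAbs_abs, Int.natAbs_abs,
    Int.natAbs_abs, Int.natAbs_abs] at this

theorem pow_bound {D K x : ℤ} (hD : 1 ≤ D) (hK : 1 ≤ K) (hx : 1 ≤ x) :
    D * x + K ≤ (D ^ 2 + D * K + K ^ 2) * x ^ 2 ∧
      D * x * (D * x + K) + K ^ 2 ≤ (D ^ 2 + D * K + K ^ 2) * x ^ 2 := by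
  have hx2 : x ≤ x ^ 2 := by nlinarith
  have hx3 : 1 ≤ x ^ 2 := by linarith
  have hDD : D ≤ D ^ 2 := by nlinarith
  have hDK : K ≤ D * K := le_mul_of_one_le_left (by linarith) hD
  constructor
  · have e1 : D * x ≤ D ^ 2 * x ^ 2 := mul_le_mul hDD hx2 (by linarith) (by positivity)
    have e2 : K ≤ D * K * x ^ 2 := hDK.trans (le_mul_of_one_le_right (by positivity) hx3)
    have e3 : 0 ≤ K ^ 2 * x ^ 2 := by positivity
    linarith
  · have e1 : D * K * x ≤ D * K * x ^ 2 := mul_le_mul_of_nonneg_left hx2 (by positivity)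
    have e2 : K ^ 2 ≤ K ^ 2 * x ^ 2 := le_mul_of_one_le_right (by positivity) hx3
    linarith

/-- If the sign is constant on `[x, K x^2]` then it is determined. -/
theorem eps {A M q L : ℤ} (hM : M = q * L) (hq : 1 ≤ q) (hM0 : M ≠ 0) :
    ∃ K x₀ : ℤ, 1 ≤ K ∧ 1 ≤ x₀ ∧ ∀ h : ℕ → ℤ, CM h → ∀ x : ℤ, x₀ ≤ x → ∀ ε : ℤ,
      (∀ n : ℤ, x ≤ n → n ≤ K * x ^ 2 → h (fv A M n).natAbs = ε) →
        h M.natAbs = h q.natAbs * ε := by
  obtain ⟨C, hC, hsol⟩ := sols (A := A) hM hq hM0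
  have hA := abs_nonneg A
  have hMn := abs_nonneg M
  have hL := abs_nonneg L
  have hM2 := neg_abs_le M
  have hL2 := neg_abs_le L
  have hM1 := le_abs_self M
  have hL1 := le_abs_self L
  obtain ⟨K, hK⟩ : ∃ K : ℤ, K = |A| + |M| + |L| + 1 := ⟨_, rfl⟩
  obtain ⟨B, hB⟩ : ∃ B : ℤ, B = |A| + |M * (A + 3 * M)| + |M ^ 3| + 1 := ⟨_, rfl⟩
  have hB1 : 1 ≤ B := by
    have := abs_nonneg (M * (A + 3 * M)); have := abs_nonneg (M ^ 3); linarith
  have hK1 : 1 ≤ K := by linarith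
  obtain ⟨D, hD⟩ : ∃ D : ℤ, D = C * (4 * K) := ⟨_, rfl⟩
  have hD1 : 1 ≤ D := by
    rw [hD]; exact one_le_mul_of_one_le_of_one_le hC (by linarith)
  refine ⟨D ^ 2 + D * K + K ^ 2, B, by nlinarith, hB1, ?_⟩
  intro h hh x hx ε hc
  have hx1 : 1 ≤ x := by linarith
  obtain ⟨p1, p2⟩ := pow_bound hD1 hK1 hx1
  have hKx : K ≤ K * x := le_mul_of_one_le_right (by linarith) hx1
  have hxK : x ≤ K * x := le_mul_of_one_le_left (by linarith) hK1
  obtain ⟨m, a, b, hs, hp, m1, m2, a1, a2, b1, b2, hdiv⟩ := hsol (4 * K * x)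
    (one_le_mul_of_one_le_of_one_le (by linarith) hx1)
  have hCx : C * (4 * K * x) = D * x := by rw [hD]; ring
  rw [hCx] at m2 a2 b2
  obtain ⟨t, g, t1, t2, g1, g2, hT⟩ := transfer hM0 (K := K) (by linarith) hx1 hdiv b1
  have ne : ∀ n : ℤ, x ≤ n → fv A M n ≠ 0 := fun n hn =>
    fv_ne (by rw [← hB]; exact (hx.trans hn).trans (le_abs_self n))
  have hbne : fv A M b ≠ 0 := fv_ne (by
    rw [← hB]
    have := neg_le_abs b
    linarith)
  have hg3 : (-b) * (-b + K) ≤ D * x * (D * x + K) :=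
    mul_le_mul b2 (by linarith) (by linarith) (by linarith)
  have xa : x ≤ a := by linarith
  have xm : x ≤ m := by linarith
  have xm' : x ≤ m + M + L := by linarith
  have hq0 : q ≠ 0 := by linarith
  exact cm_key hh (natAbs_pos' (ne a xa)) (natAbs_pos' hbne) (natAbs_pos' (ne m xm))
    (natAbs_pos' (ne _ xm')) (natAbs_pos' hq0) (natAbs_pos' hM0) (natAbs_pos' (ne g g1))
    (natAbs_pos' (ne t t1)) (hc a xa (by linarith)) (hc m xm (by linarith))
    (hc _ xm' (by linarith)) (hc g g1 (by linarith)) (hc t t1 (by linarith))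
    (natAbs_rel hM hs hp) (natAbs_transfer hT)

end Pool.Agent.Lib_helper3.CYC
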