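import Mathlib
import Pool.Agent.Lib_helper3.CYC.Sign

/-!
Both signs at every scale.
-/

namespace Pool.Agent.Lib_helper3.CYC

/-- Passing to translates and to all `x ≥ 1`. -/
theorem shift (K₁ X₀ c : ℤ) (k : ℕ) (hK : 1 ≤ K₁) (hX : 1 ≤ X₀) :
    ∃ K : ℕ, ∀ P : ℤ → Prop, (∀ x : ℤ, X₀ ≤ x → ∃ N : ℤ, x ≤ N ∧ N ≤ K₁ * x ^ k ∧ P N) →
      ∀ x : ℕ, 1 ≤ x → ∃ n : ℕ, x ≤ n ∧ n ≤ K * x ^ k ∧ P ((n : ℤ) + c) := by
  have hc := abs_nonneg c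
  have hc1 := le_abs_self c
  have hc2 := neg_abs_le c
  obtain ⟨E, hE⟩ : ∃ E : ℤ, E = X₀ * (1 + |c|) := ⟨_, rfl⟩
  have hE1 : 1 + |c| ≤ E := by rw [hE]; exact le_mul_of_one_le_left (by linarith) hX
  have hE2 : X₀ ≤ E := by rw [hE]; exact le_mul_of_one_le_right (by linarith) (by linarith)
  refine ⟨(K₁ * E ^ k + |c|).toNat, ?_⟩
  intro P hP x hx
  have hxz : (1 : ℤ) ≤ x := by exact_mod_cast hx
  have hEx : E ≤ E * x := le_mul_of_one_le_right (by linarith) hxz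
  obtain ⟨N, h1, h2, h3⟩ := hP (E * x) (hE2.trans hEx)
  have hxE : (1 + |c|) * x ≤ E * x := mul_le_mul_of_nonneg_right hE1 (by linarith)
  have hcx : |c| ≤ |c| * x := le_mul_of_one_le_right hc hxz
  have hn : (x : ℤ) ≤ N - c := by linarith
  have hxk : (1 : ℤ) ≤ (x : ℤ) ^ k := one_le_pow₀ hxz
  have hck : |c| ≤ |c| * (x : ℤ) ^ k := le_mul_of_one_le_right hc hxk
  have hEk : (0 : ℤ) ≤ K₁ * E ^ k := by
    have : 0 ≤ E := by linarith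
    positivity
  refine ⟨(N - c).toNat, ?_, ?_, ?_⟩
  · omega
  · have e1 : (((K₁ * E ^ k + |c|).toNat * x ^ k : ℕ) : ℤ) = (K₁ * E ^ k + |c|) * (x : ℤ) ^ k := by
      rw [Nat.cast_mul, Nat.cast_pow, Int.toNat_of_nonneg (by linarith)]
    have e2 : K₁ * (E * x) ^ k = K₁ * E ^ k * (x : ℤ) ^ k := by rw [mul_pow]; ring
    have e3 : N - c ≤ (((K₁ * E ^ k + |c|).toNat * x ^ k : ℕ) : ℤ) := by
      rw [e1]; rw [e2] at h2; linarith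
    omega
  · have : (((N - c).toNat : ℕ) : ℤ) + c = N := by omega
    rw [this]; exact h3

/-- The first theorem: a divisor of `M` with sign `-1`. -/
theorem both_div {A M : ℤ} (hM0 : M ≠ 0) (c : ℤ) :
    ∃ K : ℕ, ∀ h : ℕ → ℤ, CM h → (∃ q : ℕ, 1 ≤ q ∧ (q : ℤ) ∣ M ∧ h q = -1) →
      ∀ x : ℕ, 1 ≤ x → ∀ s : ℤ, (s = 1 ∨ s = -1) →
        ∃ n : ℕ, x ≤ n ∧ n ≤ K * x ^ 2 ∧ h (fv A M ((n : ℤ) + c)).natAbs = s := by
  have key : ∀ q : ℕ, ∃ K x₀ : ℤ, 1 ≤ K ∧ 1 ≤ x₀ ∧ (1 ≤ q → (q : ℤ) ∣ M →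
      ∀ h : ℕ → ℤ, CM h → ∀ x : ℤ, x₀ ≤ x → ∀ ε : ℤ,
      (∀ n : ℤ, x ≤ n → n ≤ K * x ^ 2 → h (fv A M n).natAbs = ε) → h M.natAbs = h q * ε) := by
    intro q
    by_cases hq : 1 ≤ q ∧ (q : ℤ) ∣ M
    · obtain ⟨hq1, L, hL⟩ := hq
      obtain ⟨K, x₀, hK, hx₀, hh⟩ := eps (A := A) hL (by exact_mod_cast hq1) hM0
      refine ⟨K, x₀, hK, hx₀, fun _ _ h hc x hx ε hε => ?_⟩
      have := hh h hc x hx ε hε
      rwa [Int.natAbs_natCast] at this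
    · exact ⟨1, 1, le_rfl, le_rfl, fun h1 h2 => absurd ⟨h1, h2⟩ hq⟩
  choose KK XX hKK hXX hkey using key
  obtain ⟨K₁, hK₁⟩ : ∃ K₁ : ℤ, K₁ = ∑ q ∈ Finset.range (M.natAbs + 1), KK q := ⟨_, rfl⟩
  obtain ⟨X₁, hX₁⟩ : ∃ X₁ : ℤ, X₁ = ∑ q ∈ Finset.range (M.natAbs + 1), XX q := ⟨_, rfl⟩
  have hKle : ∀ q ∈ Finset.range (M.natAbs + 1), KK q ≤ K₁ := by
    intro q hq
    rw [hK₁]
    exact Finset.single_le_sum (f := KK) (fun i _ => by linarith [hKK i]) hq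
  have hXle : ∀ q ∈ Finset.range (M.natAbs + 1), XX q ≤ X₁ := by
    intro q hq
    rw [hX₁]
    exact Finset.single_le_sum (f := XX) (fun i _ => by linarith [hXX i]) hq
  have hM1 : 1 ≤ M.natAbs := natAbs_pos' hM0
  have h1mem : 1 ∈ Finset.range (M.natAbs + 1) := by rw [Finset.mem_range]; omega
  have hK₁1 : 1 ≤ K₁ := (hKK 1).trans (hKle 1 h1mem)
  have hX₁1 : 1 ≤ X₁ := (hXX 1).trans (hXle 1 h1mem)
  obtain ⟨B, hB⟩ : ∃ B : ℤ, B = |A| + |M * (A + 3 * M)| + |M ^ 3| + 1 := ⟨_, rfl⟩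
  have hB1 : 1 ≤ B := by
    have := abs_nonneg A; have := abs_nonneg (M * (A + 3 * M)); have := abs_nonneg (M ^ 3)
    linarith
  obtain ⟨K, hK⟩ := shift K₁ (X₁ + B) c 2 hK₁1 (by linarith)
  refine ⟨K, ?_⟩
  rintro h hh ⟨q, hq1, hqM, hhq⟩ x hx s hs
  refine hK (fun N => h (fv A M N).natAbs = s) ?_ x hx
  intro y hy
  by_contra hcon
  push Not at hcon
  have hconst : ∀ n : ℤ, y ≤ n → n ≤ K₁ * y ^ 2 → h (fv A M n).natAbs = -s := by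
    intro n hn1 hn2
    have h1 := hcon n hn1 hn2
    have h2 : fv A M n ≠ 0 := fv_ne (by rw [← hB]; exact (by linarith : B ≤ n).trans (le_abs_self n))
    rcases hh.values _ (natAbs_pos' h2) with h3 | h3 <;> rcases hs with rfl | rfl <;> simp_all
  have hqmem : q ∈ Finset.range (M.natAbs + 1) := by
    rw [Finset.mem_range, Nat.lt_succ_iff]
    exact Nat.le_of_dvd (by omega) (Int.natCast_dvd.1 hqM)
  have hy0 : 0 ≤ y ^ 2 := sq_nonneg y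
  have use : ∀ r ∈ Finset.range (M.natAbs + 1), 1 ≤ r → (r : ℤ) ∣ M →
      h M.natAbs = h r * (-s) := by
    intro r hr hr1 hrM
    refine hkey r hr1 hrM h hh y (by linarith [hXle r hr]) (-s) ?_
    intro n hn1 hn2
    exact hconst n hn1 (hn2.trans (mul_le_mul_of_nonneg_right (hKle r hr) hy0))
  have u1 := use 1 h1mem le_rfl (by simp)
  have u2 := use q hqmem hq1 hqM
  rw [hh.one] at u1
  rw [hhq, u1] at u2
  rcases hs with rfl | rfl <;> omega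

end Pool.Agent.Lib_helper3.CYC
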