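import Mathlib
import Pool.Agent.Lib_helper3.CYC.Sign

/-!
The simplest cubics (`|M| = 1`): a finite descent (after helper12's dichotomy).
-/

namespace Pool.Agent.Lib_helper3.CYC

theorem fv_one_ne (A x : ℤ) : fv A 1 x ≠ 0 := by
  intro h
  have h2 : (fv A 1 x) % 2 = 1 := by
    rcases Int.even_or_odd' x with ⟨k, rfl | rfl⟩
    · have : fv A 1 (2 * k) =
        2 * (4 * k ^ 3 - 2 * A * k ^ 2 - (A + 3) * k - 1) + 1 := by unfold fv; ring
      rw [this]; omega
    · have : fv A 1 (2 * k + 1) =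
        2 * (4 * k ^ 3 + 6 * k ^ 2 + 3 * k - 2 * A * k ^ 2 - 2 * A * k - A - (A + 3) * k - 2) + 1
          := by unfold fv; ring
      rw [this]; omega
  rw [h] at h2
  norm_num at h2

/-- The sign at `x` for the simplest cubic. -/
def Lh (h : ℕ → ℤ) (A x : ℤ) : ℤ := h (fv A 1 x).natAbs

variable {h : ℕ → ℤ}

theorem Lh_cases (hh : CM h) (A x : ℤ) : Lh h A x = 1 ∨ Lh h A x = -1 :=
  hh.values _ (natAbs_pos' (fv_one_ne A x))

theorem Lh_A (hh : CM h) (A x : ℤ) :
    Lh h A (x ^ 2 - (A + 1) * x - 2) = Lh h A x * Lh h A (A + 1 - x) := by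
  have e : fv A 1 (x ^ 2 - (A + 1) * x - 2) = -(fv A 1 x * fv A 1 (A + 1 - x)) := by
    unfold fv; ring
  unfold Lh
  rw [e, Int.natAbs_neg, Int.natAbs_mul,
    hh.mul _ _ (natAbs_pos' (fv_one_ne _ _)) (natAbs_pos' (fv_one_ne _ _))]

theorem Lh_B (hh : CM h) (A x : ℤ) :
    Lh h A (-x ^ 2 + A * x + A + 2) = Lh h A x * Lh h A (A - x) := by
  have e : fv A 1 (-x ^ 2 + A * x + A + 2) = fv A 1 x * fv A 1 (A - x) := by
    unfold fv; ring
  unfold Lh
  rw [e, Int.natAbs_mul,
    hh.mul _ _ (natAbs_pos' (fv_one_ne _ _)) (natAbs_pos' (fv_one_ne _ _))]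

theorem Lh_reflect (A x : ℤ) : Lh h A (-1 - x) = Lh h (-A - 3) x := by
  unfold Lh
  have : fv A 1 (-1 - x) = -fv (-A - 3) 1 x := by unfold fv; ring
  rw [this, Int.natAbs_neg]

theorem Lh_zero (hh : CM h) (A : ℤ) : Lh h A 0 = 1 := by
  have : fv A 1 0 = -1 := by unfold fv; ring
  unfold Lh; rw [this]; simpa using hh.one

theorem Lh_neg_one (hh : CM h) (A : ℤ) : Lh h A (-1) = 1 := by
  have : fv A 1 (-1) = 1 := by unfold fv; ring
  unfold Lh; rw [this]; simpa using hh.one

theorem Lh_one (A : ℤ) : Lh h A 1 = Lh h A (-2) := by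
  have : fv A 1 1 = fv A 1 (-2) := by unfold fv; ring
  unfold Lh; rw [this]

theorem outer (hh : CM h) {A : ℤ} (hA : -1 ≤ A) {X : ℤ} (hX : A + 4 ≤ X)
    (hc : ∀ n, X ≤ |n| → |n| ≤ 4 * X ^ 2 → Lh h A n = 1) :
    ∀ k : ℤ, 2 ≤ k → k ≤ 4 * X ^ 2 - A - 1 → Lh h A (-k) = 1 ∧ Lh h A (A + 1 + k) = 1 := by
  have hX3 : 3 ≤ X := by linarith
  have key : ∀ d : ℕ, ∀ k : ℤ, 2 ≤ k → k ≤ 4 * X ^ 2 - A - 1 → X - d ≤ k →
      Lh h A (-k) = 1 ∧ Lh h A (A + 1 + k) = 1 := by
    intro d
    induction d with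
    | zero =>
      intro k hk hk' hXk
      have hk1 : X ≤ k := by simpa using hXk
      constructor
      · apply hc
        · rw [abs_neg, abs_of_pos (by linarith)]; exact hk1
        · rw [abs_neg, abs_of_pos (by linarith)]; linarith
      · apply hc
        · rw [abs_of_pos (by linarith)]; linarith
        · rw [abs_of_pos (by linarith)]; linarith
    | succ d ih =>
      intro k hk hk' hXk
      by_cases hk2 : X - d ≤ k
      · exact ih k hk hk' hk2
      · push_cast at hXk
        have hkX : k + 1 ≤ X := by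
          have : (0 : ℤ) ≤ d := Int.natCast_nonneg d
          omega
        have hih : ∀ k' : ℤ, k < k' → k' ≤ 4 * X ^ 2 - A - 1 →
            Lh h A (-k') = 1 ∧ Lh h A (A + 1 + k') = 1 := by
          intro k' hk1 hk2
          exact ih k' (by omega) hk2 (by omega)
        have hk3 : (k + 1) ^ 2 ≤ X ^ 2 := pow_le_pow_left₀ (by linarith) hkX 2
        have hXX : X ≤ X ^ 2 := by nlinarith
        have hAX : (A + 1) * k ≤ (A + 1) * X := mul_le_mul_of_nonneg_left (by linarith) (by linarith)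
        have hAX2 : (A + 1) * X ≤ X * X := mul_le_mul_of_nonneg_right (by linarith) (by linarith)
        have hXX' : X * X = X ^ 2 := by ring
        have hk4 : 0 ≤ (A + 1) * k := by
          apply mul_nonneg <;> linarith
        have hk5 : k * k = k ^ 2 := by ring
        have hk6 : 2 * k ≤ k * k := mul_le_mul_of_nonneg_right hk (by linarith)
        have h1 : Lh h A (A + 1 + k) = 1 := by
          have hb := Lh_B hh A (-(k + 1))
          have e1 : -(-(k + 1)) ^ 2 + A * (-(k + 1)) + A + 2 = -((k + 1) ^ 2 + A * k - 2) := by ring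
          have e2 : A - -(k + 1) = A + 1 + k := by ring
          rw [e1, e2, (hih (k + 1) (by omega) (by linarith)).1, one_mul] at hb
          rw [← hb]
          refine (hih _ ?_ ?_).1
          · linarith
          · linarith
        refine ⟨?_, h1⟩
        have hA := Lh_A hh A (-k)
        have e1 : (-k) ^ 2 - (A + 1) * (-k) - 2 = A + 1 + (k ^ 2 + (A + 1) * k - A - 3) := by ring
        have e2 : A + 1 - -k = A + 1 + k := by ring
        rw [e1, e2, h1, mul_one] at hA
        rw [← hA]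
        have hk7 : (A + 1) * 2 ≤ (A + 1) * k := mul_le_mul_of_nonneg_left hk (by linarith)
        have hge : k ≤ k ^ 2 + (A + 1) * k - A - 3 := by linarith
        rcases hge.eq_or_lt with h | h
        · rw [← h]; exact h1
        · refine (hih _ h ?_).2
          linarith
  intro k hk hk'
  exact key (X - k).toNat k hk hk' (by omega)

theorem descent' (hh : CM h) {A : ℤ} (hA : -1 ≤ A) {X : ℤ} (hX : A + 4 ≤ X)
    (hc : ∀ n, X ≤ |n| → |n| ≤ 4 * X ^ 2 → Lh h A n = 1) : ∀ n, |n| ≤ X → Lh h A n = 1 := by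
  have T := outer hh hA hX hc
  have hX3 : 3 ≤ X := by linarith
  have hXX : (A + 4) ^ 2 ≤ X ^ 2 := pow_le_pow_left₀ (by linarith) hX 2
  have hXX' : X ≤ X ^ 2 := by nlinarith
  have hT : A ^ 2 + 3 * A + 8 ≤ 4 * X ^ 2 - A - 1 := by nlinarith
  have h0 := Lh_zero hh A
  have hm1 := Lh_neg_one hh A
  have hm2 := (T 2 le_rfl (by nlinarith)).1
  have h1 : Lh h A 1 = 1 := by rw [Lh_one]; exact hm2
  have win : ∀ d : ℕ, (1 + d : ℤ) ≤ A → Lh h A (1 + d) = 1 := by
    intro d
    induction d with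
    | zero => intro _; simpa using h1
    | succ d ih =>
      intro hd
      push_cast at hd ⊢
      have hn := ih (by omega)
      obtain ⟨n, hn'⟩ : ∃ n : ℤ, n = 1 + (d : ℤ) := ⟨_, rfl⟩
      rw [← hn'] at hn
      have hn1 : 1 ≤ n := by omega
      have hna : n ≤ A - 1 := by omega
      have e0 : 1 + ((d : ℤ) + 1) = n + 1 := by rw [hn']; ring
      rw [e0]
      have hA := Lh_A hh A (n + 1)
      have hB := Lh_B hh A n
      have e1 : (n + 1) ^ 2 - (A + 1) * (n + 1) - 2 = -((n + 1) * (A - n) + 2) := by ring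
      have e2 : A + 1 - (n + 1) = A - n := by ring
      have e3 : -n ^ 2 + A * n + A + 2 = A + 1 + (n * (A - n) + 1) := by ring
      have p1 : 0 ≤ (n + 1) * (A - n) := mul_nonneg (by linarith) (by linarith)
      have p2 : 1 ≤ n * (A - n) := one_le_mul_of_one_le_of_one_le hn1 (by linarith)
      have p3 : (n + 1) * (A - n) ≤ A * A :=
        mul_le_mul (by linarith) (by linarith) (by linarith) (by linarith)
      rw [e1, e2, (T _ (by linarith) (by nlinarith)).1] at hA
      rw [e3, (T _ (by linarith) (by nlinarith)).2, hn, one_mul] at hB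
      rw [← hB, mul_one] at hA
      exact hA.symm
  have hwin : ∀ n : ℤ, 1 ≤ n → n ≤ A → Lh h A n = 1 := by
    intro n h1n hna
    have := win (n - 1).toNat (by omega)
    have e : (1 : ℤ) + ((n - 1).toNat : ℤ) = n := by omega
    rwa [e] at this
  have ha1 : Lh h A (A + 1) = 1 := by
    have hA := Lh_A hh A 0
    have e1 : (0 : ℤ) ^ 2 - (A + 1) * 0 - 2 = -2 := by ring
    rw [e1, h0, hm2, one_mul, sub_zero] at hA
    exact hA.symm
  have ha0 : Lh h A A = 1 := by
    rcases lt_or_ge A 1 with h' | h'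
    · have : A = -1 ∨ A = 0 := by omega
      rcases this with rfl | rfl
      · exact hm1
      · exact h0
    · exact hwin A h' le_rfl
  have ha2 : Lh h A (A + 2) = 1 := by
    have hA := Lh_A hh A (-1)
    have e1 : (-1 : ℤ) ^ 2 - (A + 1) * (-1) - 2 = A := by ring
    have e2 : A + 1 - -1 = A + 2 := by ring
    rw [e1, e2, hm1, ha0, one_mul] at hA
    exact hA.symm
  intro n hn
  have hn2 := le_abs_self n
  have hn3 := neg_le_abs n
  rcases le_or_gt n (-2) with h' | h'
  · have := (T (-n) (by omega) (by linarith)).1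
    rwa [neg_neg] at this
  · rcases le_or_gt (A + 3) n with h'' | h''
    · have := (T (n - A - 1) (by omega) (by linarith)).2
      have e : A + 1 + (n - A - 1) = n := by ring
      rwa [e] at this
    · have hn : n = -1 ∨ n = 0 ∨ (1 ≤ n ∧ n ≤ A) ∨ n = A + 1 ∨ n = A + 2 := by omega
      rcases hn with rfl | rfl | ⟨q1, q2⟩ | rfl | rfl
      · exact hm1
      · exact h0
      · exact hwin n q1 q2
      · exact ha1
      · exact ha2

end Pool.Agent.Lib_helper3.CYC
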