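import Mathlib
import Pool.Agent.Lib_helper3.CYC.Div
import Pool.Agent.Lib_helper3.CYC.One

/-!
The simplest cubics (`|M| = 1`): both signs at every scale.
-/

namespace Pool.Agent.Lib_helper3.CYC

/-- The simplest cubics: if the sign is constant on `[x, K x^4]`, it is `1` for all `|m| ≤ x`. -/
theorem one_const {A M : ℤ} (hM : |M| = 1) :
    ∃ K x₀ : ℤ, 1 ≤ K ∧ 1 ≤ x₀ ∧ ∀ h : ℕ → ℤ, CM h → ∀ x : ℤ, x₀ ≤ x → ∀ ε : ℤ,
      (∀ n : ℤ, x ≤ n → n ≤ K * x ^ 4 → h (fv A M n).natAbs = ε) →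
        ∀ m : ℤ, |m| ≤ x → ε = 1 ∧ h (fv A M m).natAbs = 1 := by
  have hM0 : M ≠ 0 := by rintro rfl; norm_num at hM
  obtain ⟨K₁, x₁, hK₁, hx₁, heps⟩ := eps (A := A) (q := 1) (L := M) (by ring) le_rfl hM0
  have hA := abs_nonneg A
  obtain ⟨K, hK⟩ : ∃ K : ℤ, K = |A| + |M| + 1 := ⟨_, rfl⟩
  have hK1 : 1 ≤ K := by linarith
  obtain ⟨E, hE⟩ : ∃ E : ℤ, E = 101 * K ^ 2 := ⟨_, rfl⟩
  have hE1 : 1 ≤ E := by rw [hE]; nlinarith
  have hMn : M.natAbs = 1 := by
    have : (M.natAbs : ℤ) = 1 := by rw [Int.natCast_natAbs]; exact hM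
    exact_mod_cast this
  refine ⟨K₁ + (E ^ 2 + E * K + K ^ 2), x₁ + 4, by nlinarith, by linarith, ?_⟩
  intro h hh x hx ε hc m hm
  have hx1 : 1 ≤ x := by linarith
  have hx2 : 1 ≤ x ^ 2 := one_le_pow₀ hx1
  have hx4 : x ^ 2 ≤ x ^ 4 := by
    have : x ^ 4 = x ^ 2 * x ^ 2 := by ring
    rw [this]; exact le_mul_of_one_le_right (by linarith) hx2
  have hxx4 : x ^ 4 = (x ^ 2) ^ 2 := by ring
  have hEK : 0 ≤ E ^ 2 + E * K + K ^ 2 := by positivity
  have hε : ε = 1 := by
    have h1 := heps h hh x (by linarith) ε (fun n hn1 hn2 => hc n hn1 (by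
      have e1 : K₁ * x ^ 2 ≤ K₁ * x ^ 4 := mul_le_mul_of_nonneg_left hx4 (by linarith)
      have e2 : 0 ≤ (E ^ 2 + E * K + K ^ 2) * x ^ 4 := by positivity
      linarith))
    rw [hMn, show (1 : ℤ).natAbs = 1 from rfl, hh.one] at h1
    linarith
  refine ⟨hε, ?_⟩
  subst hε
  -- the negative side
  have hneg : ∀ n : ℤ, 4 * K * x ≤ -n → -n ≤ E * x ^ 2 → h (fv A M n).natAbs = 1 := by
    intro n hn1 hn2
    have hdiv : M ∣ n * (n - A) := by
      rcases (abs_eq (by norm_num : (0:ℤ) ≤ 1)).1 hM with h | h <;> rw [h]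
      · exact one_dvd _
      · exact (IsUnit.neg isUnit_one).dvd
    obtain ⟨t, g, t1, t2, g1, g2, hT⟩ := transfer hM0 (K := K) (by linarith) hx1 hdiv hn1
    obtain ⟨p1, p2⟩ := pow_bound hE1 hK1 hx2
    rw [← hxx4] at p1 p2
    have hKx : 0 ≤ 4 * K * x := by positivity
    have hg3 : (-n) * (-n + K) ≤ E * x ^ 2 * (E * x ^ 2 + K) :=
      mul_le_mul hn2 (by linarith) (by linarith) (by positivity)
    have hK1x : 0 ≤ K₁ * x ^ 4 := by positivity
    have ht : h (fv A M t).natAbs = 1 := hc t t1 (by linarith)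
    have hg : h (fv A M g).natAbs = 1 := hc g g1 (by linarith)
    have hne : ∀ z : ℤ, fv A M z ≠ 0 := by
      intro z
      rcases (abs_eq (by norm_num : (0:ℤ) ≤ 1)).1 hM with h | h <;> rw [h]
      · exact fv_one_ne A z
      · have : fv A (-1) z = -fv (-A) 1 (-z) := by unfold fv; ring
        rw [this]; exact neg_ne_zero.2 (fv_one_ne _ _)
    have h2 := natAbs_transfer hT
    rw [hMn, one_pow, one_mul] at h2
    rw [h2, hh.mul _ _ (natAbs_pos' (hne t)) (natAbs_pos' (hne n)), ht, one_mul] at hg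
    exact hg
  have hboth : ∀ n : ℤ, 4 * K * x ≤ |n| → |n| ≤ E * x ^ 2 → h (fv A M n).natAbs = 1 := by
    intro n hn1 hn2
    have hxK : x ≤ 4 * K * x := le_mul_of_one_le_left (by linarith) (by linarith)
    rcases le_total 0 n with h0 | h0
    · rw [abs_of_nonneg h0] at hn1 hn2
      refine hc n (by linarith) (hn2.trans ?_)
      have e1 : E * x ^ 2 ≤ E ^ 2 * x ^ 4 := mul_le_mul (by nlinarith) hx4 (by positivity)
        (by positivity)
      have e2 : 0 ≤ K₁ * x ^ 4 + E * K * x ^ 4 + K ^ 2 * x ^ 4 := by positivity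
      linarith
    · rw [abs_of_nonpos h0] at hn1 hn2
      exact hneg n hn1 hn2
  -- descent for any `A'`
  have hdesc : ∀ A' : ℤ, |A'| ≤ |A| →
      (∀ n : ℤ, 4 * K * x ≤ |n| → |n| ≤ E * x ^ 2 → Lh h A' n = 1) → ∀ n, |n| ≤ x → Lh h A' n = 1 := by
    intro A' hA' hL n hn
    have ha1 := le_abs_self A'
    have ha2 := neg_abs_le A'
    have hKx4 : 4 * K ≤ 4 * K * x := le_mul_of_one_le_right (by linarith) hx1
    have hKK : 5 * K ≤ K * x := by
      rw [mul_comm 5 K]; exact mul_le_mul_of_nonneg_left (by linarith) (by linarith)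
    obtain ⟨X, hX⟩ : ∃ X : ℤ, X = 4 * K * x + 1 := ⟨_, rfl⟩
    have hXE : 4 * X ^ 2 + 1 ≤ E * x ^ 2 := by
      have e1 : X ≤ 5 * (K * x) := by rw [hX]; nlinarith
      have e2 : X ^ 2 ≤ (5 * (K * x)) ^ 2 := pow_le_pow_left₀ (by rw [hX]; linarith) e1 2
      have e3 : E * x ^ 2 = 101 * (K * x) ^ 2 := by rw [hE]; ring
      have e4 : 1 ≤ (K * x) ^ 2 := one_le_pow₀ (by linarith)
      rw [e3]; nlinarith
    have hxX : x + 1 ≤ X := by
      have : x ≤ 4 * K * x := le_mul_of_one_le_left (by linarith) (by linarith)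
      linarith
    have hKM : |M| = 1 := hM
    rcases le_or_gt (-1) A' with h1 | h1
    · refine descent' hh h1 (X := X) (by linarith) ?_ n (by linarith)
      intro n hn1 hn2
      exact hL n (by linarith) (by linarith)
    · have h2 : -1 ≤ -A' - 3 := by omega
      have h3 : Lh h (-A' - 3) (-1 - n) = 1 := by
        refine descent' hh h2 (X := X) (by linarith) ?_ (-1 - n) ?_
        · intro n hn1 hn2
          rw [← Lh_reflect]
          have e1 : |n| ≤ |-1 - n| + 1 := by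
            have := abs_add_le (-1 - n) 1
            have e : |n| = |-1 - n + 1| := by rw [show -1 - n + 1 = -n by ring, abs_neg]
            rw [e]; simpa using this
          have e2 : |-1 - n| ≤ |n| + 1 := by
            have := abs_add_le (-n) (-1)
            have e : |-1 - n| = |-n + -1| := by rw [show -1 - n = -n + -1 by ring]
            rw [e]; simpa using this
          exact hL _ (by linarith) (by linarith)
        · have e2 : |-1 - n| ≤ |n| + 1 := by
            have := abs_add_le (-n) (-1)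
            have e : |-1 - n| = |-n + -1| := by rw [show -1 - n = -n + -1 by ring]
            rw [e]; simpa using this
          linarith
      rw [← Lh_reflect, show -1 - (-1 - n) = n by ring] at h3
      exact h3
  rcases (abs_eq (by norm_num : (0:ℤ) ≤ 1)).1 hM with h1 | h1
  · have := hdesc A le_rfl (fun n hn1 hn2 => by
      have := hboth n hn1 hn2
      rw [h1] at this
      exact this) m hm
    rw [h1]; exact this
  · have e : ∀ z : ℤ, (fv A M z).natAbs = (fv (-A) 1 (-z)).natAbs := by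
      intro z
      have : fv A (-1) z = -fv (-A) 1 (-z) := by unfold fv; ring
      rw [h1, this, Int.natAbs_neg]
    have := hdesc (-A) (by rw [abs_neg]) (fun n hn1 hn2 => by
      have := hboth (-n) (by rw [abs_neg]; exact hn1) (by rw [abs_neg]; exact hn2)
      rw [e, neg_neg] at this
      exact this) (-m) (by rw [abs_neg]; exact hm)
    rw [e]; exact this

/-- The second theorem: `|M| = 1` and one value with sign `-1`. -/
theorem both_one {A M : ℤ} (hM : |M| = 1) (c m : ℤ) :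
    ∃ K : ℕ, ∀ h : ℕ → ℤ, CM h → h (fv A M m).natAbs = -1 →
      ∀ x : ℕ, 1 ≤ x → ∀ s : ℤ, (s = 1 ∨ s = -1) →
        ∃ n : ℕ, x ≤ n ∧ n ≤ K * x ^ 4 ∧ h (fv A M ((n : ℤ) + c)).natAbs = s := by
  obtain ⟨K₁, X₁, hK₁, hX₁, key⟩ := one_const (A := A) hM
  obtain ⟨B, hB⟩ : ∃ B : ℤ, B = |A| + |M * (A + 3 * M)| + |M ^ 3| + 1 := ⟨_, rfl⟩
  have hB1 : 1 ≤ B := by
    have := abs_nonneg A; have := abs_nonneg (M * (A + 3 * M)); have := abs_nonneg (M ^ 3)
    linarith
  have hm := abs_nonneg m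
  obtain ⟨K, hK⟩ := shift K₁ (X₁ + B + |m|) c 4 hK₁ (by linarith)
  refine ⟨K, ?_⟩
  intro h hh hhm x hx s hs
  refine hK (fun N => h (fv A M N).natAbs = s) ?_ x hx
  intro y hy
  by_contra hcon
  push Not at hcon
  have hconst : ∀ n : ℤ, y ≤ n → n ≤ K₁ * y ^ 4 → h (fv A M n).natAbs = -s := by
    intro n hn1 hn2
    have h1 := hcon n hn1 hn2
    have h2 : fv A M n ≠ 0 := fv_ne (by rw [← hB]; exact (by linarith : B ≤ n).trans (le_abs_self n))
    rcases hh.values _ (natAbs_pos' h2) with h3 | h3 <;> rcases hs with rfl | rfl <;> simp_all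
  obtain ⟨-, h2⟩ := key h hh y (by linarith) (-s) hconst m (by linarith)
  rw [hhm] at h2
  norm_num at h2

/-- A value with sign `-1` when `5` has sign `-1` and `5 ∣ A - M` (after helper12). -/
theorem five {h : ℕ → ℤ} (hh : CM h) (h5 : h 5 = -1) {A M : ℤ} (hM : |M| = 1) (hd : 5 ∣ A - M) :
    ∃ m : ℤ, h (fv A M m).natAbs = -1 := by
  have key : ∀ A : ℤ, 5 ∣ A - 1 → ∃ m : ℤ, Lh h A m = -1 := by
    intro A hd
    obtain ⟨t, ht⟩ := hd
    have hA : A = 6 + 5 * (t - 1) := by linarith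
    obtain ⟨c, hc⟩ : ∃ c : ℤ, c = -3 - 2 * (t - 1) := ⟨_, rfl⟩
    have h1 : fv A 1 1 = 5 * c := by rw [hA, hc]; unfold fv; ring
    have hc0 : c ≠ 0 := by
      intro h0
      rw [h0, mul_zero] at h1
      exact fv_one_ne A 1 h1
    have h2 : 5 ^ 2 * fv A 1 (-5 - 4 * (t - 1)) = c * (fv A 1 2 * fv A 1 3) := by
      rw [hA, hc]; unfold fv; ring
    by_contra hcon
    push Not at hcon
    have hone : ∀ m, Lh h A m = 1 := fun m => (Lh_cases hh A m).resolve_right (hcon m)
    have e1 : h c.natAbs = -1 := by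
      have h3 : h (fv A 1 1).natAbs = 1 := hone 1
      rw [h1, Int.natAbs_mul, hh.mul _ _ (by norm_num) (natAbs_pos' hc0),
        show (5 : ℤ).natAbs = 5 from rfl, h5] at h3
      linarith
    have e2 := congrArg Int.natAbs h2
    rw [Int.natAbs_mul, Int.natAbs_mul, Int.natAbs_mul,
      show ((5 : ℤ) ^ 2).natAbs = 5 * 5 from rfl] at e2
    have e3 := congrArg h e2
    rw [hh.mul _ _ (by norm_num) (natAbs_pos' (fv_one_ne _ _)), hh.mul 5 5 (by norm_num) (by norm_num),
      h5, hh.mul _ _ (natAbs_pos' hc0) (Nat.mul_pos (natAbs_pos' (fv_one_ne _ _))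
        (natAbs_pos' (fv_one_ne _ _))), hh.mul _ _ (natAbs_pos' (fv_one_ne _ _))
        (natAbs_pos' (fv_one_ne _ _)), e1] at e3
    have f1 : h (fv A 1 (-5 - 4 * (t - 1))).natAbs = 1 := hone _
    have f2 : h (fv A 1 2).natAbs = 1 := hone _
    have f3 : h (fv A 1 3).natAbs = 1 := hone _
    rw [f1, f2, f3] at e3
    norm_num at e3
  rcases (abs_eq (by norm_num : (0:ℤ) ≤ 1)).1 hM with h1 | h1
  · subst h1
    exact key A hd
  · obtain ⟨m, hm⟩ := key (-A) (by
      rw [h1] at hd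
      have : -A - 1 = -(A - -1) := by ring
      rw [this]; exact hd.neg_right)
    refine ⟨-m, ?_⟩
    have e : fv A (-1) (-m) = -fv (-A) 1 m := by unfold fv; ring
    rw [h1, e, Int.natAbs_neg]
    exact hm

end Pool.Agent.Lib_helper3.CYC
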