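import Mathlib

/-!
The polynomials `X^3 - A X^2 - M (A + 3 M) X - M^3`: discriminant, irreducibility for odd `M`, and
the fact that every cyclic cubic field is generated by a root of one of them.
-/

namespace Pool.Agent.Lib_helper3.CYC

open Polynomial

/-- The polynomial `X^3 - A X^2 - M (A + 3 M) X - M^3`. -/
noncomputable def cyc (A M : ℤ) : ℤ[X] :=
  X ^ 3 - C A * X ^ 2 - C (M * (A + 3 * M)) * X - C (M ^ 3)

theorem cyc_natDegree (A M : ℤ) : (cyc A M).natDegree = 3 := by
  unfold cyc; compute_degree!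

theorem cyc_monic (A M : ℤ) : (cyc A M).Monic := by
  unfold cyc; monicity!

theorem cyc_discr (A M : ℤ) :
    (cyc A M).discr = (M * (A ^ 2 + 3 * A * M + 9 * M ^ 2)) ^ 2 := by
  have hd : (cyc A M).degree = 3 := by
    rw [degree_eq_natDegree (cyc_monic A M).ne_zero, cyc_natDegree]; rfl
  rw [discr_of_degree_eq_three hd]
  have c0 : (cyc A M).coeff 0 = -M ^ 3 := by
    simp only [cyc, coeff_sub, coeff_C_mul, coeff_X_pow, coeff_X, coeff_C]; norm_num
  have c1 : (cyc A M).coeff 1 = -(M * (A + 3 * M)) := by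
    simp only [cyc, coeff_sub, coeff_C_mul, coeff_X_pow, coeff_X, coeff_C]; norm_num
  have c2 : (cyc A M).coeff 2 = -A := by
    simp only [cyc, coeff_sub, coeff_C_mul, coeff_X_pow, coeff_X, coeff_C]; norm_num
  have c3 : (cyc A M).coeff 3 = 1 := by
    simp only [cyc, coeff_sub, coeff_C_mul, coeff_X_pow, coeff_X, coeff_C]; norm_num
  rw [c0, c1, c2, c3]
  ring

theorem cyc_irreducible {A M : ℤ} (hM : Odd M) :
    Irreducible ((cyc A M).map (Int.castRingHom ℚ)) := by
  have h2 : Irreducible ((cyc A M).map (Int.castRingHom (ZMod 2))) := by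
    apply irreducible_of_degree_le_three_of_not_isRoot
    · rw [(cyc_monic A M).natDegree_map, cyc_natDegree]; decide
    · have hMz : ((M : ℤ) : ZMod 2) = 1 := by
        obtain ⟨k, rfl⟩ := hM
        push_cast
        have : (2 : ZMod 2) = 0 := rfl
        rw [this]; ring
      intro x hx
      rw [IsRoot.def, eval_map] at hx
      unfold cyc at hx
      simp only [eval₂_sub, eval₂_mul, eval₂_pow, eval₂_X, eval₂_C] at hx
      simp only [eq_intCast] at hx
      push_cast at hx
      rw [hMz] at hx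
      generalize ((A : ℤ) : ZMod 2) = α at hx
      revert hx
      revert α x
      decide
  have h3 : Irreducible (cyc A M) :=
    Monic.irreducible_of_irreducible_map _ _ (cyc_monic A M) h2
  exact ((cyc_monic A M).irreducible_iff_irreducible_map_fraction_map (K := ℚ)).1 h3

/-- An element of order three with `σρ = -1/(1+ρ)` (after helper12). -/
theorem exists_rho (K : Type*) [Field K] [NumberField K] [IsGalois ℚ K]
    (h3 : Module.finrank ℚ K = 3) :
    ∃ (a : ℚ) (ρ : K), ρ ^ 3 - a * ρ ^ 2 - (a + 3) * ρ - 1 = 0 ∧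
      ρ ∉ (⊥ : IntermediateField ℚ K) := by
  have hcard : Nat.card (K ≃ₐ[ℚ] K) = 3 := by rw [IsGalois.card_aut_eq_finrank, h3]
  have : Fact (Nat.Prime 3) := ⟨Nat.prime_three⟩
  have : Nontrivial (K ≃ₐ[ℚ] K) := by
    rw [← Finite.one_lt_card_iff_nontrivial, hcard]; norm_num
  obtain ⟨σ, hσ⟩ := exists_ne (1 : K ≃ₐ[ℚ] K)
  have hσ3 : σ ^ 3 = 1 := by rw [← hcard]; exact pow_card_eq_one'
  have hs3 : ∀ x, σ (σ (σ x)) = x := by
    intro x
    have := congrArg (fun τ : K ≃ₐ[ℚ] K => τ x) hσ3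
    simpa [pow_succ] using this
  obtain ⟨α, hα⟩ : ∃ α, σ α ≠ α := by
    by_contra hcon
    push Not at hcon
    exact hσ (AlgEquiv.ext (fun x => by simpa using hcon x))
  have h12 : σ α - σ (σ α) ≠ 0 := by
    intro h
    have : σ (α - σ α) = 0 := by rw [map_sub]; exact h
    rw [map_eq_zero] at this
    exact hα (sub_eq_zero.mp this).symm
  have h20 : σ (σ α) - α ≠ 0 := by
    intro h
    have h' : σ (σ α) = α := sub_eq_zero.mp h
    have : σ (σ (σ α)) = σ α := by rw [h']
    rw [hs3] at this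
    exact hα this.symm
  have h01 : α - σ α ≠ 0 := fun h => hα (sub_eq_zero.mp h).symm
  -- fixed elements are rational
  have hfix : ∀ x : K, σ x = x → ∃ q : ℚ, (q : K) = x := by
    intro x hx
    have hmem : x ∈ (⊥ : IntermediateField ℚ K) := by
      rw [IsGalois.mem_bot_iff_fixed]
      intro τ
      have hτ : τ ∈ Subgroup.zpowers σ := mem_zpowers_of_prime_card hcard hσ
      obtain ⟨k, hk⟩ := Subgroup.mem_zpowers_iff.mp hτ
      have hstab : σ ∈ MulAction.stabilizer (K ≃ₐ[ℚ] K) x := by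
        rw [MulAction.mem_stabilizer_iff]; exact hx
      have := (MulAction.stabilizer (K ≃ₐ[ℚ] K) x).zpow_mem hstab k
      rw [hk, MulAction.mem_stabilizer_iff] at this
      exact this
    rw [IntermediateField.mem_bot] at hmem
    obtain ⟨q, hq⟩ := hmem
    exact ⟨q, by rw [← hq]; simp⟩
  obtain ⟨ρ, hρ⟩ : ∃ ρ : K, ρ = (α - σ α) / (σ α - σ (σ α)) := ⟨_, rfl⟩
  have e1 : σ ρ = (σ α - σ (σ α)) / (σ (σ α) - α) := by
    rw [hρ, map_div₀, map_sub, map_sub, hs3]
  have e2 : σ (σ ρ) = (σ (σ α) - α) / (α - σ α) := by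
    rw [e1, map_div₀, map_sub, map_sub, hs3]
  obtain ⟨a, ha⟩ := hfix (ρ + σ ρ + σ (σ ρ)) (by rw [map_add, map_add, hs3]; ring)
  have hmoeb : (1 + ρ) * σ ρ = -1 := by
    rw [e1, hρ]
    field_simp
    ring
  have hprod : ρ * σ ρ * σ (σ ρ) = 1 := by
    rw [e2, e1, hρ]; field_simp
  have hsec : ρ * σ ρ + ρ * σ (σ ρ) + σ ρ * σ (σ ρ) = -((a : K) + 3) := by
    rw [ha, e2, e1, hρ]
    field_simp
    ring
  refine ⟨a, ρ, ?_, ?_⟩
  · linear_combination (-ρ ^ 2) * ha - ρ * hsec + hprod
  · intro hmem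
    rw [IntermediateField.mem_bot] at hmem
    obtain ⟨q, hq⟩ := hmem
    have hfixρ : σ ρ = ρ := by rw [← hq]; simp
    rw [hfixρ, ← hq] at hmoeb
    have h1 : (1 + q) * q = -1 := by
      have : (algebraMap ℚ K) ((1 + q) * q) = algebraMap ℚ K (-1) := by
        rw [map_mul, map_add, map_one, map_neg, map_one]; exact hmoeb
      exact (algebraMap ℚ K).injective this
    nlinarith [sq_nonneg (2 * q + 1)]

/-- Every cyclic cubic field is generated by an algebraic integer whose minimal polynomial is one of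
the `cyc A M` with `M ≥ 2` (and even). -/
theorem exists_field (K : Type*) [Field K] [NumberField K] [IsGalois ℚ K]
    (h3 : Module.finrank ℚ K = 3) :
    ∃ A M : ℤ, 2 ≤ |M| ∧ ∃ ρ : K, minpoly ℤ ρ = cyc A M ∧
      IntermediateField.adjoin ℚ {ρ} = (⊤ : IntermediateField ℚ K) := by
  obtain ⟨a, ρ, h1, h2⟩ := exists_rho K h3
  have hden' : (a.den : K) ≠ 0 := by exact_mod_cast a.den_ne_zero
  have hanum : (a : K) * a.den = a.num := by
    have h : a * a.den = a.num := Rat.mul_den_eq_num a
    have := congrArg (fun q : ℚ => (q : K)) h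
    push_cast at this
    exact this
  have hposden : 0 < (a.den : ℤ) := by exact_mod_cast a.den_pos
  obtain ⟨θ, hθ⟩ : ∃ θ : K, θ = (2 * a.den : K) * ρ := ⟨_, rfl⟩
  have hroot : aeval θ (cyc (2 * a.num) (2 * a.den)) = 0 := by
    unfold cyc
    simp only [map_sub, map_mul, map_pow, aeval_X, aeval_C]
    simp only [algebraMap_int_eq, eq_intCast]
    push_cast
    rw [← hanum, hθ]
    linear_combination ((2 * (a.den : K)) ^ 3) * h1
  have hint : IsIntegral ℤ θ := ⟨_, cyc_monic _ _, hroot⟩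
  have hθbot : θ ∉ (⊥ : IntermediateField ℚ K) := by
    intro hmem
    apply h2
    have hd : (2 * (a.den : K)) ≠ 0 := mul_ne_zero two_ne_zero hden'
    have e : ρ = θ * (((2 * (a.den : ℚ))⁻¹ : ℚ) : K) := by
      rw [hθ]; push_cast; field_simp
    rw [e]
    refine mul_mem hmem ?_
    rw [IntermediateField.mem_bot]
    exact ⟨(2 * (a.den : ℚ))⁻¹, by simp⟩
  have htop : IntermediateField.adjoin ℚ {θ} = (⊤ : IntermediateField ℚ K) := by
    have := IntermediateField.isSimpleOrder_of_finrank_prime ℚ K (by rw [h3]; exact Nat.prime_three)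
    rcases eq_bot_or_eq_top (IntermediateField.adjoin ℚ {θ} : IntermediateField ℚ K) with h | h
    · exact absurd (h ▸ IntermediateField.mem_adjoin_simple_self ℚ θ) hθbot
    · exact h
  refine ⟨2 * a.num, 2 * a.den, ?_, θ, ?_, htop⟩
  · rw [abs_of_pos (by linarith)]; linarith
  · have hdeg : (minpoly ℤ θ).natDegree = 3 := by
      have e1 : minpoly ℚ θ = (minpoly ℤ θ).map (algebraMap ℤ ℚ) :=
        minpoly.isIntegrallyClosed_eq_field_fractions' ℚ hint
      have e2 : (minpoly ℚ θ).natDegree = 3 := by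
        rw [← IntermediateField.adjoin.finrank hint.tower_top, htop,
          IntermediateField.finrank_top', h3]
      rw [e1, (minpoly.monic hint).natDegree_map] at e2
      exact e2
    have hdvd : minpoly ℤ θ ∣ cyc (2 * a.num) (2 * a.den) :=
      minpoly.isIntegrallyClosed_dvd hint hroot
    exact (eq_of_monic_of_dvd_of_natDegree_le (minpoly.monic hint) (cyc_monic _ _) hdvd
      (by rw [cyc_natDegree, hdeg])).symm

end Pool.Agent.Lib_helper3.CYC
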